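import Pool.Agent.helper36.PT.Spec
import Pool.Agent.helper47.RA.Num

set_option autoImplicit false

namespace Pool.Agent.PT

open Finset Pool.Agent.helper71.AA

lemma DGN_del (d d' : ℕ) (hd : 0 < d) (k k' : ℤ) (h : Del d d' k k' = 0) :
    k * (d' : ℤ) = k' * (d : ℤ) := by
  unfold Del at h
  have hg : 0 < d.gcd d' := Nat.gcd_pos_of_pos_left _ hd
  have h1 : ((d' / d.gcd d' : ℕ) : ℤ) * ((d.gcd d' : ℕ) : ℤ) = (d' : ℤ) := by
    exact_mod_cast Nat.div_mul_cancel (Nat.gcd_dvd_right d d')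
  have h2 : ((d / d.gcd d' : ℕ) : ℤ) * ((d.gcd d' : ℕ) : ℤ) = (d : ℤ) := by
    exact_mod_cast Nat.div_mul_cancel (Nat.gcd_dvd_left d d')
  calc k * (d' : ℤ) = (k * ((d' / d.gcd d' : ℕ) : ℤ)) * ((d.gcd d' : ℕ) : ℤ) := by
        rw [mul_assoc, h1]
    _ = (k' * ((d / d.gcd d' : ℕ) : ℤ)) * ((d.gcd d' : ℕ) : ℤ) := by
        rw [sub_eq_zero.1 h]
    _ = k' * (d : ℤ) := by rw [mul_assoc, h2]

lemma DGN_card (H : ℕ) : (Kr H).card ≤ 2 * H := by
  unfold Kr
  rw [card_erase_of_mem (by simp), Int.card_Icc]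
  omega

lemma DGN_inner (B H d' : ℕ) (hB : 1 ≤ B) (hd' : 1 ≤ d') (k : ℤ) (hk : k ≠ 0) :
    ∑ d ∈ Ico B (2 * B), ∑ k' ∈ Kr H, (if Del d d' k k' = 0 then (1 : ℝ) else 0) ≤
      ((k.natAbs * d').divisors.card : ℝ) := by
  classical
  have hn : k.natAbs * d' ≠ 0 := by
    have : k.natAbs ≠ 0 := Int.natAbs_ne_zero.2 hk
    positivity
  have h1 : ∀ d ∈ Ico B (2 * B), ∑ k' ∈ Kr H, (if Del d d' k k' = 0 then (1 : ℝ) else 0) ≤
      if d ∈ (k.natAbs * d').divisors then (1 : ℝ) else 0 := by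
    intro d hd
    have hd0 : 0 < d := by
      have := (mem_Ico.1 hd).1
      omega
    by_cases hex : ∃ k₀ ∈ Kr H, Del d d' k k₀ = 0
    · obtain ⟨k₀, -, hk₀⟩ := hex
      have e0 := DGN_del d d' hd0 k k₀ hk₀
      have hdvd : d ∣ k.natAbs * d' := by
        have h3 : (d : ℤ) ∣ k * (d' : ℤ) := by rw [e0]; exact dvd_mul_left _ _
        have h4 := Int.natAbs_dvd_natAbs.2 h3
        rwa [Int.natAbs_mul, Int.natAbs_natCast, Int.natAbs_natCast] at h4
      rw [if_pos (Nat.mem_divisors.2 ⟨hdvd, hn⟩)]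
      calc ∑ k' ∈ Kr H, (if Del d d' k k' = 0 then (1 : ℝ) else 0)
          ≤ ∑ k' ∈ Kr H, (if k' = k₀ then (1 : ℝ) else 0) := by
            refine sum_le_sum fun k' _ => ?_
            by_cases h5 : Del d d' k k' = 0
            · have e1 := DGN_del d d' hd0 k k' h5
              have hdz : (d : ℤ) ≠ 0 := by exact_mod_cast hd0.ne'
              have e2 : k' = k₀ := by
                rw [e0] at e1
                exact (mul_right_cancel₀ hdz e1).symm
              rw [if_pos h5, if_pos e2]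
            · rw [if_neg h5]
              split_ifs
              · exact zero_le_one
              · exact le_rfl
        _ ≤ 1 := by
            rw [sum_ite_eq']
            split_ifs
            · exact le_rfl
            · exact zero_le_one
    · have h0 : ∑ k' ∈ Kr H, (if Del d d' k k' = 0 then (1 : ℝ) else 0) = 0 := by
        refine sum_eq_zero fun k' hk' => ?_
        rw [if_neg fun h => hex ⟨k', hk', h⟩]
      rw [h0]
      split_ifs
      · exact zero_le_one
      · exact le_rfl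
  calc ∑ d ∈ Ico B (2 * B), ∑ k' ∈ Kr H, (if Del d d' k k' = 0 then (1 : ℝ) else 0)
      ≤ ∑ d ∈ Ico B (2 * B), (if d ∈ (k.natAbs * d').divisors then (1 : ℝ) else 0) :=
        sum_le_sum h1
    _ = (((Ico B (2 * B)).filter (fun d => d ∈ (k.natAbs * d').divisors)).card : ℝ) := by
        rw [← sum_filter, sum_const, nsmul_eq_mul, mul_one]
    _ ≤ ((k.natAbs * d').divisors.card : ℝ) := by
        have : ((Ico B (2 * B)).filter (fun d => d ∈ (k.natAbs * d').divisors)).card ≤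
            (k.natAbs * d').divisors.card :=
          card_le_card fun d hd => (mem_filter.1 hd).2
        exact_mod_cast this

theorem DGN : DGN_stmt := by
  intro eps heps
  obtain ⟨C, hC1, hC⟩ := Pool.Agent.helper47.RA.card_divisors_le (eps / 2) (by positivity)
  have hC0 : 0 < C := by linarith
  refine ⟨2 * (C * 2 ^ (eps / 2)), by positivity, ?_⟩
  intro X hX B H hB hBX hHX
  have hX0 : 0 < X := by linarith
  have key : ∀ k ∈ Kr H, ∀ d' ∈ Ico B (2 * B),
      ∑ d ∈ Ico B (2 * B), ∑ k' ∈ Kr H, (if Del d d' k k' = 0 then (1 : ℝ) else 0) ≤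
        C * 2 ^ (eps / 2) * X ^ eps := by
    intro k hk d' hd'
    have hk0 : k ≠ 0 := (mem_erase.1 hk).1
    have hkH : k.natAbs ≤ H := by
      have := mem_Icc.1 (mem_erase.1 hk).2
      omega
    have hd1 := mem_Ico.1 hd'
    have hnpos : 0 < k.natAbs * d' := by
      have h1 : 0 < k.natAbs := Int.natAbs_pos.2 hk0
      have h2 : 0 < d' := by omega
      positivity
    refine (DGN_inner B H d' hB (by omega) k hk0).trans ((hC _ hnpos).trans ?_)
    have hle : ((k.natAbs * d' : ℕ) : ℝ) ≤ 2 * X ^ (2 : ℝ) := by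
      have h1 : ((k.natAbs : ℕ) : ℝ) ≤ X := (Nat.cast_le.2 hkH).trans hHX
      have h2 : (d' : ℝ) ≤ 2 * X := by
        have : (d' : ℝ) ≤ ((2 * B : ℕ) : ℝ) := Nat.cast_le.2 (by omega)
        push_cast at this
        linarith
      rw [Real.rpow_two]
      push_cast
      calc ((k.natAbs : ℕ) : ℝ) * (d' : ℝ) ≤ X * (2 * X) :=
            mul_le_mul h1 h2 (Nat.cast_nonneg _) hX0.le
        _ = 2 * X ^ 2 := by ring
    rw [mul_assoc]
    refine mul_le_mul_of_nonneg_left ?_ hC0.le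
    calc ((k.natAbs * d' : ℕ) : ℝ) ^ (eps / 2) ≤ (2 * X ^ (2 : ℝ)) ^ (eps / 2) :=
          Real.rpow_le_rpow (Nat.cast_nonneg _) hle (by positivity)
      _ = 2 ^ (eps / 2) * X ^ eps := by
          rw [Real.mul_rpow (by norm_num) (by positivity), ← Real.rpow_mul hX0.le]
          congr 2
          ring
  have hT : 0 ≤ C * 2 ^ (eps / 2) * X ^ eps := by positivity
  calc ∑ d₂ ∈ Ico B (2 * B), ∑ k ∈ Kr H, ∑ d₂' ∈ Ico B (2 * B), ∑ k' ∈ Kr H,
        (if Del d₂ d₂' k k' = 0 then (1 : ℝ) else 0)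
      = ∑ k ∈ Kr H, ∑ d₂' ∈ Ico B (2 * B), ∑ d₂ ∈ Ico B (2 * B), ∑ k' ∈ Kr H,
        (if Del d₂ d₂' k k' = 0 then (1 : ℝ) else 0) := by
        rw [sum_comm]
        refine sum_congr rfl fun k _ => ?_
        rw [sum_comm]
    _ ≤ ∑ k ∈ Kr H, ∑ d₂' ∈ Ico B (2 * B), C * 2 ^ (eps / 2) * X ^ eps :=
        sum_le_sum fun k hk => sum_le_sum fun d' hd' => key k hk d' hd'
    _ = ((Kr H).card : ℝ) * ((B : ℝ) * (C * 2 ^ (eps / 2) * X ^ eps)) := by
        rw [sum_const, sum_const, Nat.card_Ico, nsmul_eq_mul, nsmul_eq_mul]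
        congr 2
        have : 2 * B - B = B := by omega
        rw [this]
    _ ≤ ((2 * H : ℕ) : ℝ) * ((B : ℝ) * (C * 2 ^ (eps / 2) * X ^ eps)) := by
        refine mul_le_mul_of_nonneg_right (Nat.cast_le.2 (DGN_card H)) ?_
        positivity
    _ = 2 * (C * 2 ^ (eps / 2)) * X ^ eps * (H * B) := by
        push_cast
        ring

end Pool.Agent.PT
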